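import Pool.Agent.H701Z.Fiid.Amen
import Pool.Agent.H701Z.Fiid.Forest
import Pool.Agent.H701Z.Fiid.Amplify
import Pool.Agent.H701Z.Fiid.Swap
import Pool.Agent.H701Z.Fiid.Glue

set_option autoImplicit false

namespace Pool.Agent.Results.MP_d941c8_lc.BaseIndependent

open MeasureTheory Pool.Agent.H701Z.Fiid

/-- For every finitely generated group `Γ` and all standard probability spaces `(X, μ)`, `(Y, ν)`
whose measures are not concentrated on a point, `FIID(X, μ, Γ) = FIID(Y, ν, Γ)`. -/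
theorem result (Γ : Type) [Group Γ] [Group.FG Γ]
    (X Y : Type) [MeasurableSpace X] [StandardBorelSpace X]
    [MeasurableSpace Y] [StandardBorelSpace Y]
    (μ : Measure X) [IsProbabilityMeasure μ] (ν : Measure Y) [IsProbabilityMeasure ν]
    (hμ : ∀ x, μ {x} ≠ 1) (hν : ∀ y, ν {y} ≠ 1) :
    FIID X μ Γ = FIID Y ν Γ := by
  classical
  refine fiid_eq_of_core (fun hinf ρ _ h0 h1 L hL => ?_) X Y μ ν hμ hν
  have : Countable Γ := glue_countable Γ
  obtain ⟨a, ha⟩ := exists_sq_ne_one (Γ := Γ)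
  obtain ⟨P, S, hB, hP⟩ := solv_of_base a ha ρ h0 h1
  refine hP L ?_
  by_cases hF : Folner Γ
  · exact core_amen hB hF L hL
  · obtain ⟨V, U, pay, D, Good, hd, hFo⟩ := exists_forest hF P S hB
    obtain ⟨Φ, h1, h2, h3⟩ := core_of_forest P S hB hFo
    obtain ⟨f, hf, hs⟩ := hL
    refine ⟨f ∘ Φ, hf.comp h3.measurable, fun ω z z' h => congrArg f (h2 ω z z' h), ?_⟩
    filter_upwards [h3.quasiMeasurePreserving.ae hs] with z hz
    simpa only [Function.comp_apply, h1] using hz

end Pool.Agent.Results.MP_d941c8_lc.BaseIndependent
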